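import Pool.Agent.helper70.LZ.SpecZ
import Pool.Agent.helper59.FI.Base

/-!
# Row lz:ZL4: `|D| EE η η'` is integral at `M`
-/

set_option autoImplicit false

namespace Pool.Agent.LE

open Pool.Agent.helper58.DC Pool.Agent.DI Pool.Agent.GR Pool.Agent.OB Pool.Agent.DR Pool.Agent.FI Pool.Agent.FI3 Pool.Agent.FI4

theorem ZL4_ord {G : Type} [Group G] (l x : G) : orderOf (l * x * l⁻¹) = orderOf x := by
  have h : l * x * l⁻¹ = (MulAut.conj l).toMonoidHom x := rfl
  rw [h]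
  exact orderOf_injective (MulAut.conj l).toMonoidHom (MulAut.conj l).injective x

theorem ZL4_kap {G : Type} [Group G] (p : ℕ) (L : Subgroup G) (η : G → ℂ)
    (hc : ∀ g, ∀ h ∈ L, η (h * g * h⁻¹) = η g) : ∀ l ∈ L, ∀ x, kap p L η (l * x * l⁻¹) = kap p L η x := by
  classical
  intro l hl x
  have h1 : l * x * l⁻¹ ∈ L ↔ x ∈ L := by
    constructor
    · intro h
      have h2 := L.mul_mem (L.mul_mem (L.inv_mem hl) h) hl
      have h3 : l⁻¹ * (l * x * l⁻¹) * l = x := by group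
      rwa [h3] at h2
    · intro h
      exact L.mul_mem (L.mul_mem hl h) (L.inv_mem hl)
  have h4 : PReg p (l * x * l⁻¹) ↔ PReg p x := by
    unfold PReg
    rw [ZL4_ord]
  have h5 : (l * x * l⁻¹)⁻¹ = l * x⁻¹ * l⁻¹ := by group
  unfold kap
  rw [h5, hc _ l hl]
  by_cases h : x ∈ L ∧ PReg p x
  · rw [if_pos h, if_pos ⟨h1.2 h.1, h4.2 h.2⟩]
  · rw [if_neg h, if_neg fun h' => h ⟨h1.1 h'.1, h4.1 h'.2⟩]

theorem ZL4_kapint {G : Type} [Group G] (p : ℕ) (L : Subgroup G) (η : G → ℂ)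
    (hi : ∀ g, IsIntegral ℤ (η g)) : ∀ x, IsIntegral ℤ (kap p L η x) := by
  classical
  intro x
  unfold kap
  split_ifs with h
  · exact hi _
  · exact isIntegral_zero

theorem ZL4_cc {G : Type} [Group G] (p : ℕ) (L : Subgroup G) (η η' : G → ℂ) :
    cc η (kap p L η') = (∑ᶠ v ∈ {v : G | v ∈ L ∧ PReg p v}, η v * η' v⁻¹) / η 1 := by
  classical
  unfold cc
  rw [finsum_mem_def]
  congr 1
  refine finsum_congr fun x => ?_
  unfold kap
  by_cases h : x ∈ L ∧ PReg p x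
  · have h' : x ∈ {v : G | v ∈ L ∧ PReg p v} := h
    rw [if_pos h, Set.indicator_of_mem h', mul_comm]
  · have h' : x ∉ {v : G | v ∈ L ∧ PReg p v} := h
    rw [if_neg h, Set.indicator_of_notMem h', zero_mul]

theorem ZL4 (hC3 : C3_stmt) (hB2 : B2_stmt) (hCVF : CVF_stmt) : ZL4_stmt := by
  classical
  intro p M hS G _ _ D x θ χ lo P hP η hη η' hη'
  have hηI : η ∈ IrrOn (cz P) := hη.1
  obtain ⟨x', -, hd⟩ := lo.dfl P hP η hηI hη.2.symm
  obtain ⟨⟨n, hn0, hn1, -⟩, -, hint, -⟩ := (hB2 G (cz P)).2 η hηI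
  obtain ⟨-, hconj', hint', -⟩ := (hB2 G (cz P)).2 η' hη'
  have hp := hS.pr
  have hcard := hd.card
  unfold pp at hcard
  set a : ℕ := padicValNat p (Nat.card (Cz (cz P) x')) with ha
  have := Fact.mk hp
  obtain ⟨c, hc⟩ : p ^ a ∣ Nat.card (Cz (cz P) x') := by
    rw [ha]
    exact pow_padicValNat_dvd
  have hCpos : 0 < Nat.card (Cz (cz P) x') := Nat.card_pos
  have hcp : ¬ p ∣ c := by
    rintro ⟨c', hc'⟩
    have hc0 : c' ≠ 0 := by
      rintro rfl
      rw [hc', mul_zero, mul_zero] at hc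
      omega
    have h1 : padicValNat p (Nat.card (Cz (cz P) x')) = a + (1 + padicValNat p c') := by
      rw [hc, hc', padicValNat.mul (pow_ne_zero _ hp.ne_zero) (mul_ne_zero hp.ne_zero hc0),
        padicValNat.prime_pow, padicValNat.mul hp.ne_zero hc0, padicValNat.self hp.one_lt]
    omega
  have hnC : (n : ℂ) ≠ 0 := by exact_mod_cast hn0.ne'
  have hLC : (Nat.card (cz P) : ℂ) ≠ 0 := by
    have h : 0 < Nat.card (cz P) := Nat.card_pos
    exact_mod_cast h.ne'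
  have hccI : IsIntegral ℤ (cc η (cls (cz P) x')) := cc_cls_int le_rfl hηI x'
  have h2 := cc_cls hηI x'
  rw [hn1, hc] at h2
  push_cast at h2
  have hcI : IsIntegral ℤ ((c : ℂ) * cc η (cls (cz P) x')) := by
    have h := isIntegral_algebraMap (R := ℤ) (A := ℂ) (x := (c : ℤ))
    have h' : IsIntegral ℤ (c : ℂ) := by simpa using h
    exact h'.mul hccI
  have hcM : ¬ InM M ((c : ℂ) * cc η (cls (cz P) x')) := by
    intro h5
    rcases InM.or hS (IntAt.natCast hS c) (IntAt.of_isIntegral hS hccI) h5 with h6 | h6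
    · exact hcp ((InM.natCast hS c).1 h6)
    · exact hd.ne h6
  have hA : IntAt M ((Nat.card D : ℂ) * n / Nat.card (cz P)) := by
    refine ⟨⟨η x', hint x'⟩, ⟨_, hcI⟩, fun h => hcM (InM.coe hS h), ?_⟩
    change (Nat.card D : ℂ) * n / Nat.card (cz P) * ((c : ℂ) * cc η (cls (cz P) x')) = η x'
    rw [hcard]
    push_cast
    have h3 : (n : ℂ) * (η x' / n) = η x' := mul_div_cancel₀ _ hnC
    have h4 : (p : ℂ) ^ a * n / Nat.card (cz P) * ((c : ℂ) * cc η (cls (cz P) x')) =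
        n * ((p : ℂ) ^ a * c * cc η (cls (cz P) x')) / Nat.card (cz P) := by ring
    rw [h4, h2, ← mul_assoc, mul_comm (n : ℂ), mul_assoc, h3, mul_div_assoc, mul_comm, div_mul_cancel₀ _ hLC]
  have hK : IsIntegral ℤ (cc η (kap p (cz P) η')) :=
    (hC3 G).1 (cz P) η hηI _ (ZL4_kap p (cz P) η' hconj') (ZL4_kapint p (cz P) η' hint')
  have hfin : (Nat.card D : ℂ) * EE p (cz P) η η' =
      (Nat.card D : ℂ) * n / Nat.card (cz P) * cc η (kap p (cz P) η') := by
    rw [ZL4_cc, hn1]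
    unfold EE
    field_simp
  rw [hfin]
  exact hA.mul hS (IntAt.of_isIntegral hS hK)

end Pool.Agent.LE
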